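import Pool.Agent.T6.H59.LC.Sq

/-!
# The symbol cycles of the Latin square
-/

set_option autoImplicit false

namespace Pool.Agent.T6.H59.LC

open Function Finset

/-- the type of the involutions -/
def e0 : G := (0, 1)

theorem e0_e0 : ∀ i : G, i + e0 + e0 = i := by decide
theorem e0_ne : ∀ i : G, i + e0 ≠ i := by decide

theorem chi_e0 {A : Type} [CommRing A] (i : G) : chi A (i + e0) = - chi A i := by
  have h : ∀ i : G, (i.2 = 0 ∧ (i + e0).2 ≠ 0) ∨ (i.2 ≠ 0 ∧ (i + e0).2 = 0) := by decide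
  unfold chi
  rcases h i with ⟨h1, h2⟩ | ⟨h1, h2⟩
  · rw [if_pos h1, if_neg h2]
  · rw [if_neg h1, if_pos h2, neg_neg]

/-- counting -/
theorem count_le {ι A Y : Type} [Fintype ι] (φ : ι → A → Y)
    (hφ : ∀ i, Function.Injective (φ i)) (g : Y) (T : Finset A)
    (hT : ∀ b ∈ T, ∃ i, φ i b = g) : T.card ≤ Fintype.card ι := by
  classical
  rcases T.eq_empty_or_nonempty with rfl | ⟨b0, hb0⟩
  · simp
  · obtain ⟨i0, -⟩ := hT b0 hb0
    haveI : Nonempty ι := ⟨i0⟩
    choose! f hf using hT
    rw [← card_univ]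
    refine card_le_card_of_injOn f (fun _ _ => mem_coe.2 (mem_univ _)) ?_
    intro b hb c hc h
    have h1 := hf b hb
    have h2 := hf c hc
    rw [← h] at h2
    exact hφ _ (h1.trans h2.symm)

namespace Par

variable {A R : Type} [CommRing A] [AddCommGroup R] (P : Par A R)

/-- the symbols exchanged with `w` -/
def W : (G × A) ⊕ R → A → (G × A) ⊕ R
  | .inl (k, _), b => .inl (k + e0, b)
  | .inr _, b => .inl (0, b)

/-- the permutation of the rows, apart from the prolongation -/
def pi0 : (G × A) ⊕ R → A → G × A → G × A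
  | .inl (_, a), b, (i, u) => (i + e0, u - chi A i * (a + b))
  | .inr h, b, (i, u) => (tau i, chi A (tau i) * b + P.c h - u)

/-- the row of the symbol `(k, a)` in the column `h` -/
def pr (w : G × A) (h : R) : G × A := (tau w.1, (chi A (tau w.1) * w.2 + P.c h) * P.i2)

omit [AddCommGroup R] in
theorem pi0_inl (k : G) (a b : A) (g : G × A) :
    P.pi0 (.inl (k, a)) b (P.pi0 (.inl (k, a)) b g) = g := by
  obtain ⟨i, u⟩ := g
  simp only [pi0, e0_e0, chi_e0]
  congr 1
  ring

omit [AddCommGroup R] in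
theorem pi0_inr (h : R) (b : A) (i : G) (u : A) :
    (P.pi0 (.inr h) b)^[1] (i, u) = (tau i, chi A (tau i) * b + P.c h - u) ∧
    (P.pi0 (.inr h) b)^[2] (i, u) =
      (tau (tau i), u + (chi A (tau (tau i)) - chi A (tau i)) * b) ∧
    (P.pi0 (.inr h) b)^[3] (i, u) =
      (i, (chi A i - chi A (tau (tau i)) + chi A (tau i)) * b + P.c h - u) ∧
    (P.pi0 (.inr h) b)^[4] (i, u) = (tau i, u + (chi A (tau (tau i)) - chi A i) * b) ∧
    (P.pi0 (.inr h) b)^[5] (i, u) = (tau (tau i), chi A i * b + P.c h - u) ∧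
    (P.pi0 (.inr h) b)^[6] (i, u) = (i, u) := by
  have h1 : (P.pi0 (.inr h) b)^[1] (i, u) = (tau i, chi A (tau i) * b + P.c h - u) := rfl
  have h2 : (P.pi0 (.inr h) b)^[2] (i, u) =
      (tau (tau i), u + (chi A (tau (tau i)) - chi A (tau i)) * b) := by
    rw [Function.iterate_succ_apply', h1]
    simp only [pi0]
    congr 1
    ring
  have h3 : (P.pi0 (.inr h) b)^[3] (i, u) =
      (i, (chi A i - chi A (tau (tau i)) + chi A (tau i)) * b + P.c h - u) := by
    rw [Function.iterate_succ_apply', h2]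
    simp only [pi0, g3]
    congr 1
    ring
  have h4 : (P.pi0 (.inr h) b)^[4] (i, u) =
      (tau i, u + (chi A (tau (tau i)) - chi A i) * b) := by
    rw [Function.iterate_succ_apply', h3]
    simp only [pi0]
    congr 1
    ring
  have h5 : (P.pi0 (.inr h) b)^[5] (i, u) = (tau (tau i), chi A i * b + P.c h - u) := by
    rw [Function.iterate_succ_apply', h4]
    simp only [pi0]
    congr 1
    ring
  refine ⟨h1, h2, h3, h4, h5, ?_⟩
  rw [Function.iterate_succ_apply', h5]
  simp only [pi0, g3]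
  congr 1
  ring

omit [AddCommGroup R] in
theorem pi0_six (w : (G × A) ⊕ R) (b : A) (g : G × A) : (P.pi0 w b)^[6] g = g := by
  rcases w with ⟨k, a⟩ | h
  · simp only [Function.iterate_succ, Function.iterate_zero, Function.comp_apply, id]
    simp only [pi0_inl]
  · obtain ⟨i, u⟩ := g
    exact (P.pi0_inr h b i u).2.2.2.2.2

variable [DecidableEq A]

/-- orbits -/
def orb (w : (G × A) ⊕ R) (b : A) (g : G × A) : Finset (G × A) :=
  (range 6).image (fun j => (P.pi0 w b)^[j] g)

omit [AddCommGroup R] in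
theorem mem_orb {w : (G × A) ⊕ R} {b : A} {g g' : G × A} :
    g' ∈ P.orb w b g ↔ ∃ j < 6, (P.pi0 w b)^[j] g = g' := by
  simp [orb]

omit [AddCommGroup R] in
theorem self_orb (w : (G × A) ⊕ R) (b : A) (g : G × A) : g ∈ P.orb w b g :=
  P.mem_orb.2 ⟨0, by norm_num, rfl⟩

omit [AddCommGroup R] in
theorem orb_closed {w : (G × A) ⊕ R} {b : A} {g g' : G × A} (h : g' ∈ P.orb w b g) :
    P.pi0 w b g' ∈ P.orb w b g := by
  obtain ⟨j, hj, rfl⟩ := P.mem_orb.1 h
  by_cases h5 : j = 5
  · subst h5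
    rw [← Function.iterate_succ_apply' (P.pi0 w b), P.pi0_six]
    exact P.self_orb w b g
  · exact P.mem_orb.2 ⟨j + 1, by omega, Function.iterate_succ_apply' _ _ _⟩

omit [AddCommGroup R] in
theorem orb_iter {w : (G × A) ⊕ R} {b : A} {g g' : G × A} (h : g' ∈ P.orb w b g) (n : ℕ) :
    (P.pi0 w b)^[n] g' ∈ P.orb w b g := by
  induction n with
  | zero => exact h
  | succ n ih =>
    rw [Function.iterate_succ_apply']
    exact P.orb_closed ih

omit [AddCommGroup R] in
theorem orb_symm {w : (G × A) ⊕ R} {b : A} {g g' : G × A} (h : g' ∈ P.orb w b g) :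
    g ∈ P.orb w b g' := by
  obtain ⟨j, hj, rfl⟩ := P.mem_orb.1 h
  have h1 := P.orb_iter (P.self_orb w b ((P.pi0 w b)^[j] g)) (6 - j)
  rw [← Function.iterate_add_apply] at h1
  have h2 : 6 - j + j = 6 := by omega
  rwa [h2, P.pi0_six] at h1

omit [AddCommGroup R] in
theorem orb_sub {w : (G × A) ⊕ R} {b : A} {g g' : G × A} (h : g' ∈ P.orb w b g) :
    P.orb w b g' ⊆ P.orb w b g := by
  intro x hx
  obtain ⟨j, hj, rfl⟩ := P.mem_orb.1 hx
  exact P.orb_iter h j

omit [AddCommGroup R] in
theorem orb_eq {w : (G × A) ⊕ R} {b : A} {g g' : G × A} (h : g' ∈ P.orb w b g) :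
    P.orb w b g' = P.orb w b g :=
  Subset.antisymm (P.orb_sub h) (P.orb_sub (P.orb_symm h))

omit [AddCommGroup R] in
theorem orb_card (w : (G × A) ⊕ R) (b : A) (g : G × A) : (P.orb w b g).card ≤ 6 := by
  refine card_image_le.trans ?_
  simp

omit [AddCommGroup R] in
theorem orb_inl {k : G} {a b : A} {g g' : G × A} (h : g' ∈ P.orb (.inl (k, a)) b g) :
    g' = g ∨ g' = P.pi0 (.inl (k, a)) b g := by
  obtain ⟨j, hj, rfl⟩ := P.mem_orb.1 h
  interval_cases j
  · exact Or.inl rfl
  · exact Or.inr rfl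
  · left; simp only [Function.iterate_succ, Function.iterate_zero, Function.comp_apply, id,
      pi0_inl]
  · right; simp only [Function.iterate_succ, Function.iterate_zero, Function.comp_apply, id,
      pi0_inl]
  · left; simp only [Function.iterate_succ, Function.iterate_zero, Function.comp_apply, id,
      pi0_inl]
  · right; simp only [Function.iterate_succ, Function.iterate_zero, Function.comp_apply, id,
      pi0_inl]

variable [Fintype R]

/-- the rows of the exceptional columns -/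
def Ps : (G × A) ⊕ R → A → Finset (G × A)
  | .inl (k, a), b => univ.image (P.pr (k, a)) ∪ univ.image (P.pr (k + e0, b))
  | .inr _, b => univ.image (P.pr (0, b))

variable [DecidableEq R]

/-- the exceptional closed set -/
def H (w : (G × A) ⊕ R) (b : A) : Finset ((G × A) ⊕ R) :=
  univ.image Sum.inr ∪ ((P.Ps w b).biUnion (P.orb w b)).image Sum.inl

omit [AddCommGroup R] in
theorem inr_H (w : (G × A) ⊕ R) (b : A) (h : R) : Sum.inr h ∈ P.H w b := by
  simp [H]

omit [AddCommGroup R] in
theorem inl_H {w : (G × A) ⊕ R} {b : A} {g : G × A} :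
    Sum.inl g ∈ P.H w b ↔ ∃ p ∈ P.Ps w b, g ∈ P.orb w b p := by
  simp [H]

omit [AddCommGroup R] in
theorem H_orb {w : (G × A) ⊕ R} {b : A} {g g' : G × A} (h : Sum.inl g ∈ P.H w b)
    (hg : g' ∈ P.orb w b g) : Sum.inl g' ∈ P.H w b := by
  obtain ⟨p, hp, h1⟩ := P.inl_H.1 h
  exact P.inl_H.2 ⟨p, hp, P.orb_sub h1 hg⟩

omit [AddCommGroup R] in
theorem Ps_H {w : (G × A) ⊕ R} {b : A} {p : G × A} (h : p ∈ P.Ps w b) : Sum.inl p ∈ P.H w b :=
  P.inl_H.2 ⟨p, h, P.self_orb _ _ _⟩

/-- the closed sets -/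
def S (w : (G × A) ⊕ R) (b : A) (x : (G × A) ⊕ R) : Finset ((G × A) ⊕ R) :=
  if x ∈ P.H w b then P.H w b else
    match x with
    | .inl g => (P.orb w b g).image Sum.inl
    | .inr _ => P.H w b

omit [AddCommGroup R] in
theorem S_of_mem {w : (G × A) ⊕ R} {b : A} {x : (G × A) ⊕ R} (h : x ∈ P.H w b) :
    P.S w b x = P.H w b := by simp [S, h]

omit [AddCommGroup R] in
theorem S_of_notMem {w : (G × A) ⊕ R} {b : A} {g : G × A} (h : Sum.inl g ∉ P.H w b) :
    P.S w b (.inl g) = (P.orb w b g).image Sum.inl := by simp [S, h]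

omit [AddCommGroup R] in
theorem S_self (w : (G × A) ⊕ R) (b : A) (x : (G × A) ⊕ R) : x ∈ P.S w b x := by
  by_cases h : x ∈ P.H w b
  · rw [P.S_of_mem h]; exact h
  · rcases x with g | h'
    · rw [P.S_of_notMem h]
      exact mem_image_of_mem _ (P.self_orb _ _ _)
    · exact absurd (P.inr_H w b h') h

omit [AddCommGroup R] in
theorem S_eq (w : (G × A) ⊕ R) (b : A) (x y : (G × A) ⊕ R) (hy : y ∈ P.S w b x) :
    P.S w b y = P.S w b x := by
  by_cases h : x ∈ P.H w b
  · rw [P.S_of_mem h] at hy ⊢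
    exact P.S_of_mem hy
  · rcases x with g | h'
    · rw [P.S_of_notMem h] at hy ⊢
      obtain ⟨g', hg', rfl⟩ := mem_image.1 hy
      have h2 : Sum.inl g' ∉ P.H w b := fun h3 => h (P.H_orb h3 (P.orb_symm hg'))
      rw [P.S_of_notMem h2, P.orb_eq hg']
    · exact absurd (P.inr_H w b h') h

omit [AddCommGroup R] in
theorem S_orb {w : (G × A) ⊕ R} {b : A} {g g' : G × A} (hg : g' ∈ P.orb w b g) :
    Sum.inl g' ∈ P.S w b (.inl g) := by
  by_cases h : Sum.inl g ∈ P.H w b
  · rw [P.S_of_mem h]; exact P.H_orb h hg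
  · rw [P.S_of_notMem h]; exact mem_image_of_mem _ hg

omit [AddCommGroup R] in
theorem Ps_card (w : (G × A) ⊕ R) (b : A) : (P.Ps w b).card ≤ 2 * Fintype.card R := by
  rcases w with ⟨k, a⟩ | h
  · simp only [Ps]
    refine (card_union_le _ _).trans ?_
    have h1 : (univ.image (P.pr (k, a))).card ≤ Fintype.card R := by
      rw [← card_univ]; exact card_image_le
    have h2 : (univ.image (P.pr (k + e0, b))).card ≤ Fintype.card R := by
      rw [← card_univ]; exact card_image_le
    omega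
  · simp only [Ps]
    have h2 : (univ.image (P.pr ((0 : G), b))).card ≤ Fintype.card R := by
      rw [← card_univ]; exact card_image_le
    omega

omit [AddCommGroup R] in
theorem H_card (w : (G × A) ⊕ R) (b : A) : (P.H w b).card ≤ 13 * Fintype.card R := by
  unfold H
  refine (card_union_le _ _).trans ?_
  have h1 : (univ.image (Sum.inr : R → (G × A) ⊕ R)).card ≤ Fintype.card R := by
    rw [← card_univ]; exact card_image_le
  have h2 : (((P.Ps w b).biUnion (P.orb w b)).image (Sum.inl : G × A → (G × A) ⊕ R)).card ≤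
      (P.Ps w b).card * 6 :=
    card_image_le.trans (card_biUnion_le_card_mul _ _ _ fun p _ => P.orb_card w b p)
  have h3 := P.Ps_card w b
  omega

omit [AddCommGroup R] in
theorem S_card (w : (G × A) ⊕ R) (b : A) (x : (G × A) ⊕ R) :
    (P.S w b x).card ≤ 13 * Fintype.card R + 7 := by
  by_cases h : x ∈ P.H w b
  · rw [P.S_of_mem h]
    exact (P.H_card w b).trans (by omega)
  · rcases x with g | h'
    · rw [P.S_of_notMem h]
      refine card_image_le.trans ((P.orb_card w b g).trans (by omega))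
    · exact absurd (P.inr_H w b h') h

end Par

end Pool.Agent.T6.H59.LC
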