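import Pool.Agent.T6.H59.LC.Expl2

/-!
# Spreading of the symbol cycles
-/

set_option autoImplicit false

namespace Pool.Agent.T6.H59.LC

open Function Finset

theorem chi_cancel {A : Type} [CommRing A] {i : G} {a b : A} (h : chi A i * a = chi A i * b) :
    a = b := by
  rw [← chi_mul' i a, h, chi_mul']

theorem t00 : tau ((0, 0) : G) = (0, 0) := by decide
theorem t10 : tau ((1, 0) : G) = (0, 1) := by decide
theorem t01 : tau ((0, 1) : G) = (1, 1) := by decide
theorem t11 : tau ((1, 1) : G) = (1, 0) := by decide

theorem c00 {A : Type} [CommRing A] : chi A ((0, 0) : G) = 1 := if_pos rfl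
theorem c10 {A : Type} [CommRing A] : chi A ((1, 0) : G) = 1 := if_pos rfl
theorem c01 {A : Type} [CommRing A] : chi A ((0, 1) : G) = -1 := if_neg (by decide)
theorem c11 {A : Type} [CommRing A] : chi A ((1, 1) : G) = -1 := if_neg (by decide)

namespace Par

variable {A R : Type} [CommRing A] [AddCommGroup R] (P : Par A R)
variable [DecidableEq A] [Fintype R] [DecidableEq R]

omit [AddCommGroup R] [DecidableEq A] [Fintype R] [DecidableEq R] in
include P in
theorem third' {a b : A} (h : 3 * a = 3 * b) : a = b := by
  have := P.h3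
  linear_combination (a * (-1) + b) * this + P.i3 * h

omit [AddCommGroup R] in
theorem H_count_inl (k : G) (a : A) (g : G × A) (hg : ∀ h, g ≠ P.pr (k, a) h) (T : Finset A)
    (hT : ∀ b ∈ T, Sum.inl g ∈ P.H (.inl (k, a)) b) : T.card ≤ 3 * Fintype.card R := by
  let φ : R × Fin 3 → A → G × A := fun p b =>
    if p.2 = 0 then P.pi0 (.inl (k, a)) b (P.pr (k, a) p.1) else
    if p.2 = 1 then P.pr (k + e0, b) p.1 else
    P.pi0 (.inl (k, a)) b (P.pr (k + e0, b) p.1)
  have h1 := count_le φ (by
    rintro ⟨h, j⟩ b b' hb
    fin_cases j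
    · simp only [φ, pi0, pr, Prod.mk.injEq, true_and, if_true, Fin.zero_eta] at hb
      apply chi_cancel (i := tau k)
      linear_combination -hb
    · simp only [φ, pr, Prod.mk.injEq, true_and, if_true, Fin.mk_one, one_ne_zero,
        if_false] at hb
      apply chi_cancel (i := tau (k + e0))
      have h2 := P.half (chi A (tau (k + e0)) * b + P.c h)
      have h3 := P.half (chi A (tau (k + e0)) * b' + P.c h)
      linear_combination -h2 + h3 + 2 * hb
    · simp only [φ, pi0, pr, Prod.mk.injEq, true_and, Fin.reduceFinMk, Fin.reduceEq,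
        if_false] at hb
      apply chi_cancel (i := tau (k + e0))
      have h2 := P.half (chi A (tau (k + e0)) * b + P.c h)
      have h3 := P.half (chi A (tau (k + e0)) * b' + P.c h)
      linear_combination h2 - h3 - 2 * hb) g T (by
    intro b hb
    obtain ⟨p, hp, hgp⟩ := P.inl_H.1 (hT b hb)
    simp only [Ps, mem_union, mem_image, mem_univ, true_and] at hp
    rcases hp with ⟨h, rfl⟩ | ⟨h, rfl⟩ <;> rcases P.orb_inl hgp with e | e
    · exact absurd e (hg h)
    · exact ⟨(h, 0), by simp only [φ, if_true]; exact e.symm⟩
    · exact ⟨(h, 1), by simp only [φ, one_ne_zero, if_false, if_true]; exact e.symm⟩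
    · exact ⟨(h, 2), by simp only [φ, Fin.reduceEq, if_false]; exact e.symm⟩)
  refine h1.trans (le_of_eq ?_)
  rw [Fintype.card_prod, Fintype.card_fin, Nat.mul_comm]

omit [AddCommGroup R] in
theorem H_count_inr (h0 : R) (g : G × A) (T : Finset A)
    (hT : ∀ b ∈ T, Sum.inl g ∈ P.H (.inr h0) b) : T.card ≤ 2 * Fintype.card R := by
  have t0 : tau (0 : G) = 0 := by decide
  have c0 : chi A (0 : G) = 1 := if_pos rfl
  let φ : R × Fin 2 → A → G × A := fun p b =>
    if p.2 = 0 then P.pr (0, b) p.1 else P.pi0 (.inr h0) b (P.pr (0, b) p.1)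
  have h1 := count_le φ (by
    rintro ⟨h, j⟩ b b' hb
    fin_cases j
    · simp only [φ, pr, Prod.mk.injEq, true_and, if_true, Fin.zero_eta, t0, c0, one_mul] at hb
      have h2 := P.half (b + P.c h)
      have h3 := P.half (b' + P.c h)
      linear_combination -h2 + h3 + 2 * hb
    · simp only [φ, pi0, pr, Prod.mk.injEq, true_and, Fin.mk_one, one_ne_zero, t0, c0, one_mul,
        if_false] at hb
      have h2 := P.half (b + P.c h)
      have h3 := P.half (b' + P.c h)
      linear_combination h2 - h3 + 2 * hb) g T (by
    intro b hb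
    obtain ⟨p, hp, hgp⟩ := P.inl_H.1 (hT b hb)
    simp only [Ps, mem_image, mem_univ, true_and] at hp
    obtain ⟨h, rfl⟩ := hp
    obtain ⟨j, hj, e⟩ := P.mem_orb.1 hgp
    have hform : P.pr (0, b) h = ((0 : G), (b + P.c h) * P.i2) := by
      simp only [pr, t0, c0, one_mul]
    have hpi : P.pi0 (.inr h0) b (P.pr (0, b) h) =
        ((0 : G), b + P.c h0 - (b + P.c h) * P.i2) := by
      rw [hform]; simp only [pi0, t0, c0, one_mul]
    obtain ⟨q1, q2, q3, q4, q5, -⟩ := P.pi0_inr h0 b 0 ((b + P.c h) * P.i2)
    rw [hform] at e
    have hcase : g = P.pr (0, b) h ∨ g = P.pi0 (.inr h0) b (P.pr (0, b) h) := by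
      rw [hpi, hform, ← e]
      interval_cases j
      · left; rfl
      · right; rw [q1]; simp only [t0, c0, one_mul]
      · left; rw [q2]; simp only [t0, c0]; congr 1; ring
      · right; rw [q3]; simp only [t0, c0]; congr 1; ring
      · left; rw [q4]; simp only [t0, c0]; congr 1; ring
      · right; rw [q5]; simp only [t0, c0, one_mul]
    rcases hcase with e | e
    · exact ⟨(h, 0), by simp only [φ, if_true]; exact e.symm⟩
    · exact ⟨(h, 1), by simp only [φ, one_ne_zero, if_false]; exact e.symm⟩)
  refine h1.trans (le_of_eq ?_)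
  rw [Fintype.card_prod, Fintype.card_fin, Nat.mul_comm]

omit [AddCommGroup R] in
theorem orb_inr_dich (h0 : R) (i : G) (u : A) (j : ℕ) (hj : j < 6) :
    Function.Injective (fun b => (P.pi0 (.inr h0) b)^[j] (i, u)) ∨
    ∀ b, Sum.inl ((P.pi0 (.inr h0) b)^[j] (i, u)) ∈ P.cl (.inr h0) (.inl (i, u)) := by
  have hq := fun b => P.pi0_inr h0 b i u
  have hcl : ∀ (i' : G) (u' : A), rel i i' → u' = u →
      (Sum.inl (i', u') : (G × A) ⊕ R) ∈ P.cl (.inr h0) (.inl (i, u)) := by
    rintro i' u' h rfl
    simp only [cl]
    exact mem_image.2 ⟨i', mem_filter.2 ⟨mem_univ _, h⟩, rfl⟩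
  interval_cases j
  · right; intro b; exact P.cl_self _ _
  · left
    intro b b' h
    simp only [(hq _).1, Prod.mk.injEq, true_and] at h
    apply chi_cancel (i := tau i)
    linear_combination h
  · rcases G_cases i with rfl | rfl | rfl | rfl
    · right; intro b; rw [(hq b).2.1]
      simp only [t00]
      exact hcl _ _ (by decide) (by ring)
    · right; intro b; rw [(hq b).2.1]
      simp only [t10, t01, c01, c11]
      exact hcl _ _ (by decide) (by ring)
    · left; intro b b' h
      simp only [(hq _).2.1, Prod.mk.injEq, t01, t11, c10, c11, true_and] at h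
      apply P.half'
      linear_combination h
    · left; intro b b' h
      simp only [(hq _).2.1, Prod.mk.injEq, t11, t10, c10, c01, true_and] at h
      apply P.half'
      linear_combination -h
  · rcases G_cases i with rfl | rfl | rfl | rfl
    · left; intro b b' h
      simp only [(hq _).2.2.1, Prod.mk.injEq, t00, c00, true_and] at h
      linear_combination h
    · left; intro b b' h
      simp only [(hq _).2.2.1, Prod.mk.injEq, t10, t01, c10, c01, c11, true_and] at h
      linear_combination h
    · left; intro b b' h
      simp only [(hq _).2.2.1, Prod.mk.injEq, t01, t11, c10, c01, c11, true_and] at h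
      apply P.third'
      linear_combination -h
    · left; intro b b' h
      simp only [(hq _).2.2.1, Prod.mk.injEq, t11, t10, c10, c01, c11, true_and] at h
      linear_combination h
  · rcases G_cases i with rfl | rfl | rfl | rfl
    · right; intro b; rw [(hq b).2.2.2.1]
      simp only [t00]
      exact hcl _ _ (by decide) (by ring)
    · left; intro b b' h
      simp only [(hq _).2.2.2.1, Prod.mk.injEq, t10, t01, c10, c11, true_and] at h
      apply P.half'
      linear_combination -h
    · left; intro b b' h
      simp only [(hq _).2.2.2.1, Prod.mk.injEq, t01, t11, c10, c01, true_and] at h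
      apply P.half'
      linear_combination h
    · right; intro b; rw [(hq b).2.2.2.1]
      simp only [t11, t10, c01, c11]
      exact hcl _ _ (by decide) (by ring)
  · left
    intro b b' h
    simp only [(hq _).2.2.2.2.1, Prod.mk.injEq, true_and] at h
    apply chi_cancel (i := i)
    linear_combination h

omit [AddCommGroup R] in
theorem orb_count_inr (h0 : R) (g g' : G × A)
    (hg : Sum.inl g' ∉ P.cl (.inr h0) (.inl g)) (T : Finset A)
    (hT : ∀ b ∈ T, g' ∈ P.orb (.inr h0) b g) : T.card ≤ 6 := by
  classical
  obtain ⟨i, u⟩ := g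
  have h1 := count_le (ι := {j : Fin 6 // Function.Injective
      (fun b => (P.pi0 (.inr h0) b)^[j.1] (i, u))})
    (fun j b => (P.pi0 (.inr h0) b)^[j.1.1] (i, u)) (fun j => j.2) g' T (by
    intro b hb
    obtain ⟨j, hj, e⟩ := P.mem_orb.1 (hT b hb)
    rcases P.orb_inr_dich h0 i u j hj with h2 | h2
    · exact ⟨⟨⟨j, hj⟩, h2⟩, e⟩
    · have := h2 b
      rw [e] at this
      exact absurd this hg)
  refine h1.trans ?_
  refine (Fintype.card_subtype_le _).trans ?_
  simp

variable [Fintype A]

omit [AddCommGroup R] in
theorem spread (w x u : (G × A) ⊕ R) (hu : u ∉ P.cl w x) :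
    (univ.filter (fun b => u ∈ P.S w b x)).card ≤ 13 * Fintype.card R + 7 := by
  classical
  rcases w with ⟨k, a⟩ | h0
  · by_cases hx : x ∈ P.Hc (k, a)
    · have h2 : P.cl (.inl (k, a)) x = P.Hc (k, a) := by simp only [cl, if_pos hx]
      rw [h2] at hu
      rcases u with g' | h
      · have hg : ∀ h, g' ≠ P.pr (k, a) h := by
          rintro h rfl
          exact hu (mem_union_right _ (mem_image.2 ⟨h, mem_univ _, rfl⟩))
        refine (P.H_count_inl k a g' hg _ ?_).trans (by omega)
        intro b hb
        rw [mem_filter, P.S_of_mem (P.Hc_sub k a b hx)] at hb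
        exact hb.2
      · exact absurd (mem_union_left _ (mem_image_of_mem _ (mem_univ _))) hu
    · have h2 : P.cl (.inl (k, a)) x = {x} := by simp only [cl, if_neg hx]
      rw [h2, mem_singleton] at hu
      rcases x with g | h
      · have hg : ∀ h, g ≠ P.pr (k, a) h := by
          rintro h rfl
          exact hx (mem_union_right _ (mem_image.2 ⟨h, mem_univ _, rfl⟩))
        have hsub : univ.filter (fun b => u ∈ P.S (.inl (k, a)) b (.inl g)) ⊆
            univ.filter (fun b => Sum.inl g ∈ P.H (.inl (k, a)) b) ∪
            univ.filter (fun b => u = Sum.inl (P.pi0 (.inl (k, a)) b g)) := by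
          intro b hb
          rw [mem_filter] at hb
          rw [mem_union, mem_filter, mem_filter]
          by_cases h3 : Sum.inl g ∈ P.H (.inl (k, a)) b
          · exact Or.inl ⟨mem_univ _, h3⟩
          · right
            refine ⟨mem_univ _, ?_⟩
            rw [P.S_of_notMem h3] at hb
            obtain ⟨g', hg', e⟩ := mem_image.1 hb.2
            rcases P.orb_inl hg' with e' | e'
            · rw [e'] at e; exact absurd e.symm hu
            · rw [← e, e']
        have h4 := P.H_count_inl k a g hg (univ.filter (fun b => Sum.inl g ∈ P.H (.inl (k, a)) b))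
          (fun b hb => (mem_filter.1 hb).2)
        have h5 : (univ.filter (fun b => u = Sum.inl (P.pi0 (.inl (k, a)) b g))).card ≤ 1 := by
          rw [card_le_one]
          intro b hb b' hb'
          rw [mem_filter] at hb hb'
          have h6 := hb.2.symm.trans hb'.2
          obtain ⟨i, v⟩ := g
          simp only [pi0, Sum.inl.injEq, Prod.mk.injEq, true_and] at h6
          apply chi_cancel (i := i)
          linear_combination -h6
        have h7 := card_le_card hsub
        have h8 := card_union_le (univ.filter (fun b => Sum.inl g ∈ P.H (.inl (k, a)) b))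
          (univ.filter (fun b => u = Sum.inl (P.pi0 (.inl (k, a)) b g)))
        omega
      · exact absurd (mem_union_left _ (mem_image_of_mem _ (mem_univ _))) hx
  · rcases x with g | h
    · rcases u with g' | h'
      · have hsub : univ.filter (fun b => Sum.inl g' ∈ P.S (.inr h0) b (.inl g)) ⊆
            univ.filter (fun b => Sum.inl g ∈ P.H (.inr h0) b) ∪
            univ.filter (fun b => g' ∈ P.orb (.inr h0) b g) := by
          intro b hb
          rw [mem_filter] at hb
          rw [mem_union, mem_filter, mem_filter]
          by_cases h3 : Sum.inl g ∈ P.H (.inr h0) b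
          · exact Or.inl ⟨mem_univ _, h3⟩
          · right
            refine ⟨mem_univ _, ?_⟩
            rw [P.S_of_notMem h3] at hb
            obtain ⟨g'', hg', e⟩ := mem_image.1 hb.2
            rw [Sum.inl.injEq] at e
            rw [← e]; exact hg'
        have h4 := P.H_count_inr h0 g (univ.filter (fun b => Sum.inl g ∈ P.H (.inr h0) b))
          (fun b hb => (mem_filter.1 hb).2)
        have h5 := P.orb_count_inr h0 g g' hu (univ.filter (fun b => g' ∈ P.orb (.inr h0) b g))
          (fun b hb => (mem_filter.1 hb).2)
        have h7 := card_le_card hsub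
        have h8 := card_union_le (univ.filter (fun b => Sum.inl g ∈ P.H (.inr h0) b))
          (univ.filter (fun b => g' ∈ P.orb (.inr h0) b g))
        omega
      · have hsub : univ.filter (fun b => Sum.inr h' ∈ P.S (.inr h0) b (.inl g)) ⊆
            univ.filter (fun b => Sum.inl g ∈ P.H (.inr h0) b) := by
          intro b hb
          rw [mem_filter] at hb ⊢
          by_cases h3 : Sum.inl g ∈ P.H (.inr h0) b
          · exact ⟨mem_univ _, h3⟩
          · rw [P.S_of_notMem h3] at hb
            obtain ⟨g'', hg', e⟩ := mem_image.1 hb.2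
            exact absurd e (by simp)
        have h4 := P.H_count_inr h0 g (univ.filter (fun b => Sum.inl g ∈ P.H (.inr h0) b))
          (fun b hb => (mem_filter.1 hb).2)
        have h7 := card_le_card hsub
        omega
    · rcases u with g' | h'
      · refine (P.H_count_inr h0 g' _ ?_).trans (by omega)
        intro b hb
        rw [mem_filter, P.S_of_mem (P.inr_H _ _ _)] at hb
        exact hb.2
      · exact absurd (by simp [cl]) hu

omit [AddCommGroup R] [Fintype A] in
theorem back (w : (G × A) ⊕ R) (b : A) (hw : w ∉ (univ.image Sum.inr : Finset ((G × A) ⊕ R))) :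
    ∃ b', W (W w b) b' = w ∧ ∀ x, P.S (W w b) b' x = P.S w b x := by
  rcases w with ⟨k, a⟩ | h
  · refine ⟨a, ?_, ?_⟩
    · simp only [W, e0_e0]
    · have h1 : P.pi0 (.inl (k + e0, b)) a = P.pi0 (.inl (k, a)) b := by
        funext ⟨i, u⟩
        simp only [pi0]
        congr 1
        ring
      have h2 : P.Ps (.inl (k + e0, b)) a = P.Ps (.inl (k, a)) b := by
        simp only [Ps, e0_e0]
        exact union_comm _ _
      have h3 : P.orb (.inl (k + e0, b)) a = P.orb (.inl (k, a)) b := by
        funext g
        simp only [orb, h1]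
      have h4 : P.H (.inl (k + e0, b)) a = P.H (.inl (k, a)) b := by
        simp only [H, h2, h3]
      intro x
      simp only [W, S, h3, h4]
  · exact absurd (mem_image_of_mem _ (mem_univ _)) hw

/-- the trade system -/
noncomputable def ts : TS ((G × A) ⊕ R) A (13 * Fintype.card R + 7) where
  toLS := P.ls
  W := W
  W_inj := by
    rintro (⟨k, a⟩ | h) b b' e
    · simpa [W] using e
    · simpa [W] using e
  W_ne := by
    rintro (⟨k, a⟩ | h) b
    · simp only [W, ne_eq, Sum.inl.injEq, Prod.mk.injEq, not_and]
      intro h; exact absurd h (e0_ne k)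
    · simp [W]
  cl := P.cl
  cl_self := P.cl_self
  cl_eq := P.cl_eq
  S := P.S
  S_self := P.S_self
  S_eq := P.S_eq
  S_card := P.S_card
  closed := P.closed
  cl_sub := P.cl_sub
  cl_sub' := P.cl_sub'
  spread := P.spread
  E := univ.image Sum.inr
  E_card := by
    refine card_image_le.trans ?_
    rw [card_univ]; omega
  back := P.back

end Par

end Pool.Agent.T6.H59.LC
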