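import Pool.Agent.T6.H59.LC.Expl3

/-!
# The numerical conditions, and the Latin cube avoiding a sparse set for every large order
-/

set_option autoImplicit false

namespace Pool.Agent.T6.H59.LC

open Function Finset

theorem numeric (K : ℕ) : ∃ (M N : ℕ), 0 < M ∧ ∀ K' ≤ K, ∀ n q k : ℕ, 4 * q ≤ n → n ≤ 5 * q →
    N ≤ n → M * k < n → ∃ t m m' : ℕ, t + m ≤ n ∧
      n ^ 3 * (4 * 2 ^ (4 * (K' * K') * q) * k ^ t) < m ^ t ∧
      0 < m' ∧ m' + 4 * K' * t ≤ q ∧
      2 * (2 * (K' * K') * (2 * (4 * K' * t * (K' * K')) + K' * (K' * K'))) ≤ m' := by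
  obtain ⟨D, hD⟩ : ∃ D : ℕ, D = (K + 1) ^ 5 := ⟨_, rfl⟩
  obtain ⟨E, hE⟩ : ∃ E : ℕ, E = 4 * (K * K) + 17 := ⟨_, rfl⟩
  have hD1 : 1 ≤ D := by rw [hD]; exact Nat.one_le_pow _ _ (by omega)
  refine ⟨2 * 2 ^ (E * (200 * D)), 500 * D, by positivity, ?_⟩
  intro K' hK n q k h4 h5 hN hk
  have hK5 : K' ^ 5 ≤ D := by rw [hD]; exact Nat.pow_le_pow_left (by omega) 5
  have hK1 : K' ≤ D := by
    rw [hD]
    calc K' ≤ (K + 1) ^ 1 := by rw [pow_one]; omega
      _ ≤ (K + 1) ^ 5 := Nat.pow_le_pow_right (by omega) (by norm_num)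
  have hq : 100 * D ≤ q := by omega
  set t := q / (100 * D) with ht
  have hDpos : 0 < 100 * D := by omega
  have ht1 : 1 ≤ t := (Nat.one_le_div_iff hDpos).2 hq
  have ht2 : t * (100 * D) ≤ q := Nat.div_mul_le_self _ _
  have ht3 : q < (t + 1) * (100 * D) := by
    have := Nat.lt_mul_div_succ q hDpos
    rw [Nat.mul_comm] at this
    exact this
  have hDt : D ≤ D * t := Nat.le_mul_of_pos_right _ ht1
  have htD : t ≤ D * t := Nat.le_mul_of_pos_left _ hD1
  have ht2' : 100 * (D * t) ≤ q := by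
    have e : 100 * (D * t) = t * (100 * D) := by ring
    omega
  have hKt : K' * t ≤ D * t := Nat.mul_le_mul_right _ hK1
  refine ⟨t, n - t, q - 4 * (K' * t), by omega, ?_, ?_, ?_, ?_⟩
  · rcases Nat.eq_zero_or_pos k with rfl | hkpos
    · rw [Nat.zero_pow (by omega)]
      simp only [Nat.mul_zero]
      exact Nat.pow_pos (by omega)
    · have hn2 : n < 2 ^ (5 * q) := lt_of_le_of_lt h5 Nat.lt_two_pow_self
      have h1 : n ^ 3 * 4 < 2 ^ (17 * q) := by
        have h2 : n ^ 3 < (2 ^ (5 * q)) ^ 3 := Nat.pow_lt_pow_left hn2 (by norm_num)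
        have h3 : (4 : ℕ) ≤ 2 ^ (2 * q) := by
          calc (4 : ℕ) = 2 ^ 2 := by norm_num
            _ ≤ 2 ^ (2 * q) := Nat.pow_le_pow_right (by norm_num) (by omega)
        calc n ^ 3 * 4 ≤ n ^ 3 * 2 ^ (2 * q) := Nat.mul_le_mul_left _ h3
          _ < (2 ^ (5 * q)) ^ 3 * 2 ^ (2 * q) := Nat.mul_lt_mul_of_pos_right h2 (by positivity)
          _ = 2 ^ (17 * q) := by rw [← pow_mul, ← pow_add]; congr 1; ring
      have h2 : K' * K' ≤ K * K := Nat.mul_le_mul hK hK
      have hqt : q ≤ 200 * D * t := by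
        have e : (t + 1) * (100 * D) = 100 * (D * t) + 100 * D := by ring
        have e2 : 200 * D * t = 200 * (D * t) := by ring
        omega
      calc n ^ 3 * (4 * 2 ^ (4 * (K' * K') * q) * k ^ t)
          = n ^ 3 * 4 * (2 ^ (4 * (K' * K') * q) * k ^ t) := by ring
        _ < 2 ^ (17 * q) * (2 ^ (4 * (K' * K') * q) * k ^ t) :=
            Nat.mul_lt_mul_of_pos_right h1 (by positivity)
        _ = 2 ^ ((4 * (K' * K') + 17) * q) * k ^ t := by
            rw [← mul_assoc, ← pow_add]; congr 2; ring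
        _ ≤ 2 ^ (E * (200 * D * t)) * k ^ t := by
            refine Nat.mul_le_mul_right _ (Nat.pow_le_pow_right (by norm_num) ?_)
            rw [hE]
            exact Nat.mul_le_mul (by omega) hqt
        _ = (2 ^ (E * (200 * D)) * k) ^ t := by
            rw [mul_pow, ← pow_mul]; congr 2; ring
        _ ≤ (n - t) ^ t := by
            refine Nat.pow_le_pow_left ?_ t
            have e : 2 * 2 ^ (E * (200 * D)) * k = 2 * (2 ^ (E * (200 * D)) * k) := by ring
            rw [e] at hk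
            omega
  · omega
  · have e : 4 * K' * t = 4 * (K' * t) := by ring
    omega
  · have e : 2 * (2 * (K' * K') * (2 * (4 * K' * t * (K' * K')) + K' * (K' * K'))) =
        32 * (K' ^ 5 * t) + 4 * K' ^ 5 := by ring
    have e2 : K' ^ 5 * t ≤ D * t := Nat.mul_le_mul_right _ hK5
    omega

/-- the parameters for `ZMod q` and `ZMod r` -/
noncomputable def parZ (q r : ℕ) [NeZero q] [NeZero r] (hr : r ≤ q) (h2 : Nat.Coprime 2 q)
    (h3 : Nat.Coprime 3 q) : Par (ZMod q) (ZMod r) where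
  c := fun h => ((h.val : ℕ) : ZMod q)
  c_inj := by
    intro a b h
    simp only at h
    have ha := ZMod.val_lt a
    have hb := ZMod.val_lt b
    have h1 := congrArg ZMod.val h
    rw [ZMod.val_cast_of_lt (by omega), ZMod.val_cast_of_lt (by omega)] at h1
    exact ZMod.val_injective r h1
  i2 := (((2 : ℕ) : ZMod q))⁻¹
  h2 := by
    have := ZMod.coe_mul_inv_eq_one 2 h2
    exact_mod_cast this
  i3 := (((3 : ℕ) : ZMod q))⁻¹
  h3 := by
    have := ZMod.coe_mul_inv_eq_one 3 h3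
    exact_mod_cast this

theorem exists_q (n : ℕ) (hn : 200 ≤ n) : ∃ q r : ℕ, 1 ≤ r ∧ r ≤ 16 ∧ n = 4 * q + r ∧
    Nat.Coprime 2 q ∧ Nat.Coprime 3 q := by
  have h : ∃ q, (n - 1) / 4 - 3 ≤ q ∧ q ≤ (n - 1) / 4 ∧ (q % 6 = 1 ∨ q % 6 = 5) := by
    set m := (n - 1) / 4 with hm
    have h6 : m % 6 = 0 ∨ m % 6 = 1 ∨ m % 6 = 2 ∨ m % 6 = 3 ∨ m % 6 = 4 ∨ m % 6 = 5 := by omega
    rcases h6 with h | h | h | h | h | h
    · exact ⟨m - 1, by omega, by omega, by omega⟩
    · exact ⟨m, by omega, by omega, by omega⟩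
    · exact ⟨m - 1, by omega, by omega, by omega⟩
    · exact ⟨m - 2, by omega, by omega, by omega⟩
    · exact ⟨m - 3, by omega, by omega, by omega⟩
    · exact ⟨m, by omega, by omega, by omega⟩
  obtain ⟨q, h1, h2, h3⟩ := h
  refine ⟨q, n - 4 * q, by omega, by omega, by omega, ?_, ?_⟩
  · rw [Nat.Prime.coprime_iff_not_dvd Nat.prime_two]
    omega
  · rw [Nat.Prime.coprime_iff_not_dvd Nat.prime_three]
    omega

/-- For every large order, a Latin cube avoiding a sparse set. -/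
theorem exists_cube_all : ∃ (M N : ℕ), 0 < M ∧ ∀ n ≥ N, ∀ k, M * k < n →
    ∃ (X : Type) (_ : Fintype X) (_ : DecidableEq X), Fintype.card X = n ∧
      ∀ F : Finset (Fin 4 → X), Sparse F k → ∃ L : Set (Fin 4 → X), IsCube L ∧ ∀ q ∈ L, q ∉ F := by
  obtain ⟨M, N, hM, h⟩ := numeric (13 * 16 + 7)
  refine ⟨M, max N 200, hM, ?_⟩
  intro n hn k hk
  have hnN : N ≤ n := le_trans (le_max_left _ _) hn
  have hn2 : 200 ≤ n := le_trans (le_max_right _ _) hn
  obtain ⟨q, r, hr1, hr2, hqr, hc2, hc3⟩ := exists_q n hn2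
  haveI : NeZero q := ⟨by omega⟩
  haveI : NeZero r := ⟨by omega⟩
  let P := parZ q r (by omega) hc2 hc3
  refine ⟨(G × ZMod q) ⊕ ZMod r, inferInstance, inferInstance, ?_, ?_⟩
  · rw [Fintype.card_sum, Fintype.card_prod, Fintype.card_prod, ZMod.card, ZMod.card, ZMod.card]
    omega
  · intro F hF
    have hcard : Fintype.card ((G × ZMod q) ⊕ ZMod r) = n := by
      rw [Fintype.card_sum, Fintype.card_prod, Fintype.card_prod, ZMod.card, ZMod.card, ZMod.card]
      omega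
    obtain ⟨t, m, m', h1, h2, h3, h4, h5⟩ := h (13 * Fintype.card (ZMod r) + 7)
      (by rw [ZMod.card]; omega) n q k (by omega) (by omega) hnN hk
    exact P.ts.exists_cube hF t m m' (by rw [hcard]; exact h1)
      (by rw [hcard, ZMod.card q]; exact h2) h3 (by rw [ZMod.card q]; exact h4) h5

end Pool.Agent.T6.H59.LC
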