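import Pool.Agent.T6.H59.LC.Sel3

/-!
# The Latin square: the Cayley table of a group of order `4 q` with some transversals prolonged
-/

set_option autoImplicit false

namespace Pool.Agent.T6.H59.LC

open Function Finset

/-- the group of types -/
abbrev G := ZMod 2 × ZMod 2

/-- multiplication by a primitive cube root of unity of the field with four elements -/
def tau (i : G) : G := (i.2, i.1 + i.2)

section

variable {A R : Type} [CommRing A]

/-- the sign -/
def chi (A : Type) [CommRing A] (i : G) : A := if i.2 = 0 then 1 else -1

theorem chi_mul (i : G) : chi A i * chi A i = 1 := by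
  unfold chi; split_ifs <;> simp

theorem chi_mul' (i : G) (a : A) : chi A i * (chi A i * a) = a := by
  rw [← mul_assoc, chi_mul, one_mul]

end

theorem g1 : ∀ k i : G, k + i = tau i → i = tau k := by decide
theorem g2 : ∀ k i : G, i + (k + i) = k := by decide
theorem g3 : ∀ i : G, tau (tau (tau i)) = i := by decide
theorem g4 : ∀ k i : G, k + i = tau i → i + tau i = k := by decide
theorem g5 : ∀ k : G, tau k + tau (tau k) = k := by decide
theorem g6 : ∀ i j : G, (i + j) + i = j := by decide
theorem g7 : ∀ i : G, i + tau i + i = tau i := by decide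
theorem g8 : ∀ j : G, tau (tau j) + j = tau j := by decide
theorem g9 : ∀ k i : G, k + (k + i) = i := by decide
theorem g10 : ∀ k : G, k + tau (tau k) = tau k := by decide
theorem g11 : ∀ k j : G, j = tau (k + j) → j = tau (tau k) := by decide
theorem g12 : ∀ k j : G, j = tau (k + j) → k + j = tau k := by decide
theorem g13 : ∀ k : G, k + tau k = tau (tau k) := by decide

/-- the parameters -/
structure Par (A R : Type) [CommRing A] where
  c : R → A
  c_inj : Function.Injective c
  i2 : A
  h2 : 2 * i2 = 1
  i3 : A
  h3 : 3 * i3 = 1

namespace Par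

variable {A R : Type} [CommRing A] [AddCommGroup R] (P : Par A R)

open Classical in
/-- the element of `R` with value `d` -/
noncomputable def cs (d : A) : Option R := if h : ∃ x, P.c x = d then some h.choose else none

omit [AddCommGroup R] in
theorem cs_some {d : A} {h : R} : P.cs d = some h ↔ P.c h = d := by
  unfold cs
  constructor
  · intro e
    split_ifs at e with hh
    · rw [← Option.some.inj e]; exact hh.choose_spec
  · intro e
    have hh : ∃ x, P.c x = d := ⟨h, e⟩
    rw [dif_pos hh]
    exact congrArg some (P.c_inj (hh.choose_spec.trans e.symm))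

/-- the special positions -/
noncomputable def sp (i : G) (u : A) (j : G) (y : A) : Option R :=
  if j = tau i then P.cs (u - y) else none

omit [AddCommGroup R] in
theorem sp_some {i j : G} {u y : A} {h : R} :
    P.sp i u j y = some h ↔ j = tau i ∧ P.c h = u - y := by
  unfold sp
  split_ifs with e
  · rw [cs_some]; exact ⟨fun h => ⟨e, h⟩, fun h => h.2⟩
  · simp [e]

/-- symbol -/
noncomputable def sym : (G × A) ⊕ R → (G × A) ⊕ R → (G × A) ⊕ R
  | .inl (i, u), .inl (j, y) => (P.sp i u j y).elim (.inl (i + j, chi A i * (u + y))) .inr
  | .inl (i, u), .inr h => .inl (i + tau i, chi A i * (2 * u - P.c h))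
  | .inr h, .inl (j, y) =>
      .inl (tau (tau j) + j, chi A (tau (tau j)) * (2 * y + P.c h))
  | .inr h, .inr h' => .inr (h + h')

/-- column -/
noncomputable def col : (G × A) ⊕ R → (G × A) ⊕ R → (G × A) ⊕ R
  | .inl (k, a), .inl (i, u) =>
      (P.sp i u (k + i) (chi A i * a - u)).elim (.inl (k + i, chi A i * a - u)) .inr
  | .inl (k, a), .inr h => .inl (tau (tau k), (chi A (tau k) * a - P.c h) * P.i2)
  | .inr h, .inl (i, u) => .inl (tau i, u - P.c h)
  | .inr h, .inr h' => .inr (h - h')

/-- row -/
noncomputable def row : (G × A) ⊕ R → (G × A) ⊕ R → (G × A) ⊕ R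
  | .inl (k, a), .inl (j, y) =>
      (P.sp (k + j) (chi A (k + j) * a - y) j y).elim (.inl (k + j, chi A (k + j) * a - y)) .inr
  | .inl (k, a), .inr h => .inl (tau k, (chi A (tau k) * a + P.c h) * P.i2)
  | .inr h, .inl (j, y) => .inl (tau (tau j), y + P.c h)
  | .inr h, .inr h' => .inr (h - h')

omit [AddCommGroup R] in
theorem half (a : A) : 2 * (a * P.i2) = a := by
  have := P.h2
  linear_combination a * this

omit [AddCommGroup R] in
include P in
theorem half' {a b : A} (h : 2 * a = 2 * b) : a = b := by
  have := P.h2
  linear_combination (a * (-1) + b) * this + P.i2 * h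

theorem sym_col (w x : (G × A) ⊕ R) : P.sym x (P.col w x) = w := by
  rcases w with ⟨k, a⟩ | h <;> rcases x with ⟨i, u⟩ | h'
  · simp only [col]
    cases e : P.sp i u (k + i) (chi A i * a - u) with
    | none =>
      simp only [Option.elim_none, sym, e, g2]
      congr 2
      have := chi_mul' i a
      linear_combination this
    | some h =>
      obtain ⟨e1, e2⟩ := P.sp_some.1 e
      simp only [Option.elim_some, sym, g4 k i e1]
      congr 2
      have := chi_mul' i a
      linear_combination this - chi A i * e2
  · simp only [col, sym, g3, g5]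
    congr 2
    have h1 := P.half (chi A (tau k) * a - P.c h')
    have := chi_mul' (tau k) a
    linear_combination this + chi A (tau k) * h1
  · simp only [col, sym]
    have e : P.sp i u (tau i) (u - P.c h) = some h := P.sp_some.2 ⟨rfl, by ring⟩
    rw [e]; rfl
  · simp only [col, sym]
    congr 1
    abel

theorem col_sym (x s : (G × A) ⊕ R) : P.col (P.sym x s) x = s := by
  rcases x with ⟨i, u⟩ | h <;> rcases s with ⟨j, y⟩ | h'
  · simp only [sym]
    cases e : P.sp i u j y with
    | none =>
      have e1 : chi A i * (chi A i * (u + y)) - u = y := by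
        rw [chi_mul']; ring
      simp only [Option.elim_none, col, g6, e1, e]
    | some h =>
      obtain ⟨e1, e2⟩ := P.sp_some.1 e
      simp only [Option.elim_some, col]
      rw [e1, e2]
      congr 2
      ring
  · simp only [sym, col, g7]
    have e1 : chi A i * (chi A i * (2 * u - P.c h')) - u = u - P.c h' := by
      rw [chi_mul']; ring
    rw [e1]
    have e : P.sp i u (tau i) (u - P.c h') = some h' := P.sp_some.2 ⟨rfl, by ring⟩
    rw [e]; rfl
  · simp only [sym, col, g8, g3]
    congr 2
    rw [chi_mul']
    apply P.half'
    rw [P.half]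
    ring
  · simp only [sym, col]
    congr 1
    abel

theorem row_col (w x : (G × A) ⊕ R) : P.row w (P.col w x) = x := by
  rcases w with ⟨k, a⟩ | h <;> rcases x with ⟨i, u⟩ | h'
  · simp only [col]
    cases e : P.sp i u (k + i) (chi A i * a - u) with
    | none =>
      have e1 : chi A i * a - (chi A i * a - u) = u := by ring
      simp only [Option.elim_none, row, g9, e1, e]
    | some h =>
      obtain ⟨e1, e2⟩ := P.sp_some.1 e
      have e3 := g1 k i e1
      simp only [Option.elim_some, row, ← e3]
      congr 2
      apply P.half'
      rw [P.half]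
      linear_combination e2
  · simp only [col, row, g10]
    have e : P.sp (tau k) (chi A (tau k) * a - (chi A (tau k) * a - P.c h') * P.i2)
        (tau (tau k)) ((chi A (tau k) * a - P.c h') * P.i2) = some h' := by
      rw [sp_some]
      refine ⟨rfl, ?_⟩
      have := P.half (chi A (tau k) * a - P.c h')
      linear_combination this
    rw [e]; rfl
  · simp only [col, row, g3]
    congr 2
    ring
  · simp only [col, row]
    congr 1
    abel

theorem col_row (w s : (G × A) ⊕ R) : P.col w (P.row w s) = s := by
  rcases w with ⟨k, a⟩ | h <;> rcases s with ⟨j, y⟩ | h'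
  · simp only [row]
    cases e : P.sp (k + j) (chi A (k + j) * a - y) j y with
    | none =>
      have e1 : chi A (k + j) * a - (chi A (k + j) * a - y) = y := by ring
      simp only [Option.elim_none, col, g9, e1, e]
    | some h =>
      obtain ⟨e1, e2⟩ := P.sp_some.1 e
      have e3 := g11 k j e1
      have e4 := g12 k j e1
      simp only [Option.elim_some, col]
      rw [e4] at e2
      rw [← e3]
      congr 2
      apply P.half'
      rw [P.half]
      linear_combination -e2
  · simp only [row, col, g13]
    have e1 : chi A (tau k) * a - (chi A (tau k) * a + P.c h') * P.i2 =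
        (chi A (tau k) * a + P.c h') * P.i2 - P.c h' := by
      have := P.half (chi A (tau k) * a + P.c h')
      linear_combination -this
    rw [e1]
    have e : P.sp (tau k) ((chi A (tau k) * a + P.c h') * P.i2)
        (tau (tau k)) ((chi A (tau k) * a + P.c h') * P.i2 - P.c h') = some h' := by
      rw [sp_some]
      exact ⟨rfl, by ring⟩
    rw [e]; rfl
  · simp only [row, col, g3]
    congr 2
    ring
  · simp only [row, col]
    congr 1
    abel

/-- the Latin square -/
noncomputable def ls : LS ((G × A) ⊕ R) where
  sym := P.sym
  col := P.col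
  row := P.row
  sym_col := P.sym_col
  col_sym := P.col_sym
  row_col := P.row_col
  col_row := P.col_row

end Par

end Pool.Agent.T6.H59.LC
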